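import Pool.Agent.Helper51.PS.G4
import Pool.Agent.Helper51.PS.MOM
import Pool.Agent.Helper51.PS.LCM
import Pool.Agent.Helper51.PS.LINK
import Pool.Agent.Helper51.PS.PHI
import Pool.Agent.Helper51.PS.CNT
import Pool.Agent.Helper51.PS.TUR
import Pool.Agent.Helper51.PS.DIC

/-!
# The Brun-Titchmarsh inequality with any constant, for every modulus and all but very few classes and positions

Proof: Selberg's weights of a small level, multiplied by Turán's majorant for the primes in `(h, h ^ M]`; the remainders are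
bounded in the mean of order `2 m` over the positions, where `m` is about `log K / log h` or `h ^ (1 / 5)`.
-/

set_option autoImplicit false

open Finset

namespace Pool.Agent.Results.MP_26a8c3_nt.AllButPowerFewClasses

/-- `N(x,y;k,l)`: the number of primes `p` with `x - y < p ≤ x` and `p ≡ l (mod k)`. -/
noncomputable def N (x y : ℝ) (k l : ℕ) : ℕ :=
  {p : ℕ | p.Prime ∧ x - y < p ∧ (p : ℝ) ≤ x ∧ p ≡ l [MOD k]}.ncard

open Classical in
/-- the number of the `1 ≤ j ≤ h` for which `m + j k` has no prime factor `≤ z` -/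
noncomputable def rough (z h k m : ℕ) : ℕ :=
  ((Icc 1 h).filter (fun j => ∀ p : ℕ, p.Prime → p ∣ m + j * k → z < p)).card

open Classical in
theorem result :
    -- rough numbers; every modulus `k`, short families `(u, u + K]` of classes
    (∀ δ : ℝ, 0 < δ → ∃ (M : ℕ) (c H₀ : ℝ), 0 < c ∧ 0 < H₀ ∧ ∀ (K k : ℕ) (H : ℝ), 1 ≤ k → H₀ ≤ H → ∀ u : ℕ,
      (((Ioc u (u + K)).filter (fun n : ℕ => ∃ m h : ℕ, 1 ≤ m ∧ m ≡ n [MOD k] ∧ H ≤ h ∧ (h : ℝ) ≤ (K : ℝ) ^ c ∧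
        |(m : ℝ) - n| ≤ k * min (Real.exp ((h : ℝ) ^ (1 / 5 : ℝ))) ((K : ℝ) ^ c) ∧
        δ * ((k : ℝ) / Nat.totient k * (h / Real.log h)) < rough (h ^ M) h k m)).card : ℝ) ≤
        K * Real.exp (-H ^ (1 / 5 : ℝ)) + (K : ℝ) ^ (1 - c)) ∧
    -- primes, positions
    (∀ δ : ℝ, 0 < δ → ∃ c H₀ : ℝ, 0 < c ∧ 0 < H₀ ∧ ∀ (K k : ℕ) (H : ℝ), 1 ≤ k → H₀ ≤ H → ∀ u : ℕ,
      (((Ioc u (u + K)).filter (fun n : ℕ => ∃ x y : ℝ, y ≤ x ∧ k * H ≤ y ∧ y ≤ k * (K : ℝ) ^ c ∧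
        |x - n| ≤ k * min (Real.exp ((y / k) ^ (1 / 5 : ℝ))) ((K : ℝ) ^ c) ∧
        δ * y / (Nat.totient k * Real.log (y / k)) < N x y k n)).card : ℝ) ≤
        K * Real.exp (-H ^ (1 / 5 : ℝ)) + (K : ℝ) ^ (1 - c)) ∧
    -- primes, all classes modulo `k`
    (∀ δ : ℝ, 0 < δ → ∃ c H₀ : ℝ, 0 < c ∧ 0 < H₀ ∧ ∀ (k : ℕ) (H : ℝ), 1 ≤ k → H₀ ≤ H → ∀ u : ℕ,
      (((range k).filter (fun l : ℕ => ∃ x y : ℝ, y ≤ x ∧ k * H ≤ y ∧ y ≤ (k : ℝ) ^ (1 + c) ∧
        |x - u| ≤ k * min (Real.exp ((y / k) ^ (1 / 5 : ℝ))) ((k : ℝ) ^ c) ∧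
        δ * y / (Nat.totient k * Real.log (y / k)) < N x y k l)).card : ℝ) ≤
        k * Real.exp (-H ^ (1 / 5 : ℝ)) + (k : ℝ) ^ (1 - c)) := by
  have hMOM := Pool.Agent.Helper51.PS.MOM.main Pool.Agent.Helper51.PS.PHI.main Pool.Agent.Helper51.PS.LINK.main
    Pool.Agent.Helper51.PS.CNT.main
  have hone := Pool.Agent.Helper51.PS.G1.one hMOM Pool.Agent.Helper51.PS.LCM.main Pool.Agent.Helper51.PS.TUR.main
    Pool.Agent.Helper51.PS.DIC.main
  have huni := Pool.Agent.Helper51.PS.G2.uni hone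
  have hpos := Pool.Agent.Helper51.PS.G3.pos huni
  have hcls := Pool.Agent.Helper51.PS.G4.cls hpos
  refine ⟨fun δ hδ => ?_, fun δ hδ => ?_, fun δ hδ => ?_⟩
  · obtain ⟨M, c, H₀, _, hc, _, hH, h⟩ := huni δ hδ
    refine ⟨M, c, H₀, hc, by linarith, fun K k H hk hH u => le_trans ?_ (h K k H hH hk u)⟩
    apply Nat.cast_le.2
    apply card_le_card
    intro n hn
    rw [mem_filter] at hn ⊢
    refine ⟨hn.1, fun hg => ?_⟩
    obtain ⟨m, h', h1, h2, h3, h4, h5, h6⟩ := hn.2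
    refine absurd (hg m h' h1 h2 h3 h4 (h5.trans ?_)) (not_le.2 h6)
    apply mul_le_mul_of_nonneg_left _ (Nat.cast_nonneg k)
    apply min_le_min_right
    apply Real.exp_le_exp.2
    have : 0 ≤ (h' : ℝ) ^ (1 / 5 : ℝ) := by positivity
    linarith
  · obtain ⟨c, H₀, hc, _, hH, h⟩ := hpos δ hδ
    refine ⟨c, H₀, hc, lt_of_lt_of_le (by norm_num) hH, fun K k H hk hH u => le_trans ?_ (h K k H hH hk u)⟩
    apply Nat.cast_le.2
    apply card_le_card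
    intro n hn
    rw [mem_filter] at hn ⊢
    obtain ⟨hn1, x, y, h1, h2, h3, h4, h5⟩ := hn
    refine ⟨hn1, x, y, h1, h2, h3, h4.trans ?_, h5⟩
    apply mul_le_mul_of_nonneg_left _ (Nat.cast_nonneg k)
    linarith
  · obtain ⟨c, H₀, hc, _, hH, h⟩ := hcls δ hδ
    exact ⟨c, H₀, hc, lt_of_lt_of_le (by norm_num) hH, fun k H hk hH u => h k H hk hH u⟩

end Pool.Agent.Results.MP_26a8c3_nt.AllButPowerFewClasses
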