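import Pool.Agent.Helper73.BT.SIV
import Pool.Agent.Helper73.BT.AVG
import Pool.Agent.Helper73.BT.SIM
import Pool.Agent.Helper73.BT.FIN

/-!
# Large values of the number of primes in short progressions

`N(x, y; k, l)` is the number of the primes `p ≡ l (mod k)` with `x - y < p ≤ x`. We bound the number of
the positions, and the number of the residue classes, where `N` is large: the tail is geometric with
ratio `(μ / (1 + μ)) ^ c`, `μ = y / (φ(k) log L)`, where `L` is the number of the positions, uniformly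
in all parameters, up to the values allowed by the Brun–Titchmarsh inequality.

Proof idea: binomial moments of the number of primes among `n + k, …, n + z k`, of an order `r` which is
a small constant times `log L / log z`. The sieve is used for all sets of `r` shifts, uniformly in the
dimension `r`, with the primes up to `exp(c log L / r)`. The singular series is not estimated term by
term: the sum over the sets of shifts of the product over the primes `p ≤ z` is a mean of binomial
coefficients of the numbers of the sifted `j ≤ z`, which are bounded by the one-dimensional sieve.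
-/

set_option autoImplicit false

namespace Pool.Agent.Results.MP_26a8c3_nt.ExponentialTail

open Finset

/-- `N(x, y; k, l)`: the number of the primes `p ≡ l (mod k)` with `x - y < p ≤ x` -/
noncomputable def N (x y : ℝ) (k : ℕ) (l : ℤ) : ℕ :=
  {p : ℕ | p.Prime ∧ (p : ℤ) ≡ l [ZMOD (k : ℤ)] ∧ x - y < p ∧ (p : ℝ) ≤ x}.ncard

/-- `μ = y / (φ(k) log L)` -/
noncomputable def mu (k : ℕ) (y : ℝ) (L : ℕ) : ℝ := y / (Nat.totient k * Real.log L)

lemma ncard_filter {s : Finset ℕ} {P Q : ℕ → Prop} [DecidablePred P] (h : ∀ n, Q n ↔ n ∈ s ∧ P n) :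
    {n : ℕ | Q n}.ncard = (s.filter P).card := by
  rw [← Set.ncard_coe_finset]
  congr 1
  ext n
  simp [h]

theorem result :
    -- (1) the positions `n = a + q t`, for example `q = 1` (all positions) or `q = k` (the positions
    -- in the progression `a` modulo `k`)
    (∃ c C : ℝ, 0 < c ∧ 0 < C ∧
      ∀ (k q a M L : ℕ) (y m : ℝ), 1 ≤ k → 1 ≤ q → (∀ p : ℕ, p.Prime → p ∣ q → p ∣ k) → 2 ≤ L →
        (k : ℝ) ≤ y → y ≤ k * L → 0 ≤ m →
        ({t : ℕ | M < t ∧ t ≤ M + L ∧
            m ≤ N ((a + q * t : ℕ) + y) y k (a + q * t : ℕ)}.ncard : ℝ) ≤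
          C * L * (mu k y L / (1 + mu k y L)) ^ (c * m)) ∧
    -- (2) the inequality with a small constant `η` instead of `2`, for most positions
    (∃ c C : ℝ, 0 < c ∧ 0 < C ∧
      ∀ (k q a M L : ℕ) (y η : ℝ), 1 ≤ k → 1 ≤ q → (∀ p : ℕ, p.Prime → p ∣ q → p ∣ k) → 2 ≤ L →
        0 < η → 2 * (k : ℝ) ≤ y → k * Real.log L ≤ y → y ≤ k * L →
        ({t : ℕ | M < t ∧ t ≤ M + L ∧ η * y / (Nat.totient k * Real.log (y / k)) ≤
            N ((a + q * t : ℕ) + y) y k (a + q * t : ℕ)}.ncard : ℝ) ≤
          C * L * Real.exp (-(c * η * Real.log L / Real.log (y / k)))) ∧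
    -- (3) the residue classes modulo `k`, for one interval at an arbitrary position
    (∃ c C : ℝ, 0 < c ∧ 0 < C ∧
      ∀ (k m : ℕ) (x y : ℝ), 2 ≤ k → (k : ℝ) ≤ y → y ≤ (k : ℝ) ^ 2 →
        ({l : ℕ | l < k ∧ m < N x y k l}.ncard : ℝ) ≤
          C * k * (mu k y k / (1 + mu k y k)) ^ (c * m)) ∧
    -- (4) the inequality with a small constant `η` instead of `2`, for most residue classes
    (∃ c C : ℝ, 0 < c ∧ 0 < C ∧
      ∀ (k : ℕ) (x y η : ℝ), 2 ≤ k → 0 < η →
        2 * (k : ℝ) ≤ y → k * Real.log k ≤ y → y ≤ (k : ℝ) ^ 2 →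
        ({l : ℕ | l < k ∧ η * y / (Nat.totient k * Real.log (y / k)) ≤ N x y k l}.ncard : ℝ) ≤
          C * k * Real.exp (-(c * η * Real.log k / Real.log (y / k)))) ∧
    -- (5) simultaneously for all moduli, residue classes and lengths
    (∀ A η : ℝ, 1 ≤ A → 0 < η → ∃ δ : ℝ, 0 < δ ∧ ∃ L₀ : ℕ, ∀ L : ℕ, L₀ ≤ L → ∀ M : ℕ,
      ({n : ℕ | M < n ∧ n ≤ M + L ∧ ¬ ∀ (k : ℕ) (y : ℝ), 1 ≤ k →
          (k : ℝ) ≤ Real.exp (δ * Real.log L / Real.log (Real.log L)) →
          k * Real.log L ≤ y → y ≤ k * Real.log L ^ A →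
          (N (n + y) y k n : ℝ) < η * y / (Nat.totient k * Real.log (y / k))}.ncard : ℝ) ≤
        L * Real.exp (-(δ * Real.log L / Real.log (Real.log L)))) := by
  have hmer := Helper73.BT.mer
  have hsiv := Helper73.BT.siv hmer
  have hrb := Helper73.BT.rb hmer hsiv
  have hmom := Helper73.BT.gmom hmer Helper73.BT.avg (Helper73.BT.grb hmer hsiv)
    (Helper73.BT.gtup hsiv)
  have htail := Helper73.BT.gtail hrb hmom
  have hgeo := Helper73.BT.ggeo hrb hmom htail
  have heta := Helper73.BT.eta (Helper73.BT.tail_of_gtail htail)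
  have hres := Helper73.BT.res heta
  refine ⟨?_, ?_, ?_, ?_, Helper73.BT.sim heta⟩
  · obtain ⟨c, C, hc, hC, h⟩ := Helper73.BT.positions hgeo
    refine ⟨c, C, hc, hC, fun k q a M L y m hk hq hqk hL hy hyL hm => ?_⟩
    have h1 := h k q a M L y m hk hq hqk hL hy hyL hm
    rw [ncard_filter (s := Ioc M (M + L)) (P := fun t : ℕ =>
      m ≤ Helper73.BT.N ((a + q * t : ℕ) + y) y k (a + q * t : ℕ))
      (fun n => by rw [mem_Ioc, and_assoc]; rfl)]
    exact h1
  · obtain ⟨c, C, hc, hC, h⟩ := Helper73.BT.positions_bt hgeo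
    refine ⟨c, C, hc, hC, fun k q a M L y η hk hq hqk hL hη hy hlog hyL => ?_⟩
    have h1 := h k q a M L y η hk hq hqk hL hη hy hlog hyL
    rw [ncard_filter (s := Ioc M (M + L)) (P := fun t : ℕ =>
      η * y / (Nat.totient k * Real.log (y / k)) ≤
        Helper73.BT.N ((a + q * t : ℕ) + y) y k (a + q * t : ℕ))
      (fun n => by rw [mem_Ioc, and_assoc]; rfl)]
    exact h1
  · obtain ⟨c, C, hc, hC, h⟩ := Helper73.BT.classes hgeo
    refine ⟨c, C, hc, hC, fun k m x y hk hy hyk => ?_⟩
    have h1 := h k m x y hk hy hyk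
    rw [ncard_filter (s := range k) (P := fun l : ℕ => m < Helper73.BT.N x y k l)
      (fun n => by rw [mem_range]; rfl)]
    exact h1
  · obtain ⟨c, C, hc, hC, -, h⟩ := hres
    refine ⟨c, C, hc, hC, fun k x y η hk hη hy hlog hyk => ?_⟩
    have h1 := h k x y η hk hη hy hlog hyk
    rw [ncard_filter (s := range k) (P := fun l : ℕ =>
      η * y / (Nat.totient k * Real.log (y / k)) ≤ Helper73.BT.N x y k l)
      (fun n => by rw [mem_range]; rfl)]
    exact h1

end Pool.Agent.Results.MP_26a8c3_nt.ExponentialTail
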