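import Pool.Agent.Helper82.BTM.C

/-!
# The inequality of Brun and Titchmarsh with a constant below `2` for moduli with many prime factors

For a modulus `k` and `z = y / k > 1` let `weight k z` be the sum of `min (log p / log z) 1 / p` over the
prime factors `p` of `k`. It is bounded below by a positive constant if and only if `k` has, on the
logarithmic scale, a positive proportion of the primes up to `z` (or if the reciprocals of the prime
factors above `z` have a sum bounded below).

(1) If `weight k (y / k) ≥ c`, `0 < c ≤ 1`, and `y / k` is large in terms of `c`, the inequality holds with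
the constant `2 - c ^ 2 / 10`, for ALL `x ≥ y` and ALL classes `l`. No bound for `x` in terms of `y / k` is
assumed. As such a `k` is at least as large as `exp ((y / k) ^ c')`, these are very short progressions, with
`y / k` at most a power of `log k`, outside the range `y / k ≥ x ^ ε` of the bilinear methods.

(2) In particular this holds with the constant `2 - α ^ 2 / 40` if all primes up to `(y / k) ^ α` divide `k`.

(3) On the other hand the question whether a constant below `2` is possible for all `k, l, x, y` with large
`y / k` is equivalent to its restriction to those `k, x, y` for which all primes up to `w (y / k)` divide `k`,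
where `w` is any function with `w z = o(log z)`, for which moreover `weight k (y / k) < c`, and for which
`y / k` is smaller than `x ^ η` or larger than `x ^ (1 - η)`. (The last condition uses the theorem
`MP_26a8c3_nt.PolynomialRange` of the library.)

Proof of (1): Selberg's sieve gives the bound `(y / k) / J + error`, and `(k / φ(k)) J` is at least the sum
of the reciprocals of all integers `n` for which the product of the primes dividing `n`, but not `k`, is at
most `R`, about `(y / k) ^ (1/2)`. Besides the `n ≤ R` there are many such `n` with a large part composed of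
prime factors of `k`. The modulus `k` is replaced by a multiple for (3).
-/

set_option autoImplicit false

namespace Pool.Agent.Results.MP_26a8c3_nt.ModuliWithManyPrimes

/-- The set of the primes `p ≡ l (mod k)` with `x - y < p ≤ x`. -/
def primesIn (x y : ℝ) (k : ℕ) (l : ℤ) : Set ℕ :=
  {p : ℕ | p.Prime ∧ x - y < (p : ℝ) ∧ (p : ℝ) ≤ x ∧ (p : ℤ) ≡ l [ZMOD (k : ℤ)]}

/-- The sum of `min (log p / log z) 1 / p` over the prime factors `p` of `k`. -/
noncomputable def weight (k : ℕ) (z : ℝ) : ℝ :=
  ∑ p ∈ k.primeFactors, min (Real.log p / Real.log z) 1 / p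

/-- The inequality of Brun and Titchmarsh holds with the constant `C` in place of `2` for all moduli `k`
and all `l, x, y` with `y ≤ x` and `l` prime to `k` for which `M k x y` holds and `y / k` is large. -/
def Holds (C : ℝ) (M : ℕ → ℝ → ℝ → Prop) : Prop :=
  ∃ z₀ : ℝ, ∀ (k : ℕ) (l : ℤ) (x y : ℝ), 1 ≤ k → y ≤ x → Int.gcd l (k : ℤ) = 1 →
    z₀ ≤ y / k → M k x y →
      ((primesIn x y k l).ncard : ℝ) < C * y / ((Nat.totient k : ℝ) * Real.log (y / k))

/-- The moduli and intervals which remain: all primes up to `w (y / k)` divide `k`, the weight is smaller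
than `c`, and `y / k` is not between `x ^ η` and `x ^ (1 - η)`. -/
def Remaining (w : ℝ → ℝ) (c η : ℝ) (k : ℕ) (x y : ℝ) : Prop :=
  (∀ p : ℕ, p.Prime → (p : ℝ) ≤ w (y / k) → p ∣ k) ∧ weight k (y / k) < c ∧
    (y / k < x ^ η ∨ x ^ (1 - η) < y / k)

/-- (1) The constant `2 - c ^ 2 / 10` for the moduli of weight at least `c`.
(2) The constant `2 - α ^ 2 / 40` for the moduli divisible by all primes up to `(y / k) ^ α`.
(3) A constant below `2` is possible for all moduli if and only if it is possible for the remaining ones. -/
theorem result :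
    (∀ c : ℝ, 0 < c → c ≤ 1 → Holds (2 - c ^ 2 / 10) (fun k _ y => c ≤ weight k (y / k))) ∧
    (∀ α : ℝ, 0 < α → α ≤ 1 → Holds (2 - α ^ 2 / 40)
      (fun k _ y => ∀ p : ℕ, p.Prime → (p : ℝ) ≤ (y / k) ^ α → p ∣ k)) ∧
    (∀ w : ℝ → ℝ, w =o[Filter.atTop] Real.log → ∀ c η : ℝ, 0 < c → c ≤ 1 → 0 < η → η ≤ 1 / 4 →
      ((∃ δ : ℝ, 0 < δ ∧ Holds (2 - δ) (fun _ _ _ => True)) ↔
        ∃ δ : ℝ, 0 < δ ∧ Holds (2 - δ) (Remaining w c η))) :=
  ⟨fun _ h0 h1 => Pool.Agent.Helper82.BTM.part1 h0 h1,
    fun _ h0 h1 => Pool.Agent.Helper82.BTM.part2 h0 h1,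
    fun _ hw _ _ h0 h1 h2 h3 => Pool.Agent.Helper82.BTM.part4 hw h0 h1 h2 h3⟩

end Pool.Agent.Results.MP_26a8c3_nt.ModuliWithManyPrimes
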