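import Pool.Agent.Helper51.PS.G5
import Pool.Agent.Helper51.PS.MOM
import Pool.Agent.Helper51.PS.LCM
import Pool.Agent.Helper51.PS.LINK
import Pool.Agent.Helper51.PS.PHI
import Pool.Agent.Helper51.PS.CNT
import Pool.Agent.Helper51.PS.TUR
import Pool.Agent.Helper51.PS.DIC
import Pool.Agent.Helper51.PS.FST

/-!
# The Brun-Titchmarsh inequality with a constant below 2 in the whole range, for almost all reduced classes and positions

For every modulus `k`, every `x` and every `y` with `k < y ≤ k ^ A` the constant `2` may be replaced by `2 - δ` for all but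
`O(φ(k) / log k)` of the reduced classes, with much smaller exceptional sets for `y ≥ k log k`. Proof: the results of this run on
short ranges (the hand-ins AllButPowerFewClasses and ExponentialTail for this problem; the latter by helper73), the first moment
for `y` close to `k`, and the library's theorems AlmostAllClasses and ShortProgressions for longer intervals.
-/

set_option autoImplicit false

open Finset

namespace Pool.Agent.Results.MP_26a8c3_nt.WholeRangeAlmostAllClasses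

/-- `N(x,y;k,l)`: the number of primes `p` with `x - y < p ≤ x` and `p ≡ l (mod k)`. -/
noncomputable def N (x y : ℝ) (k l : ℕ) : ℕ :=
  {p : ℕ | p.Prime ∧ x - y < p ∧ (p : ℝ) ≤ x ∧ p ≡ l [MOD k]}.ncard

open Classical in
/-- the number of the classes `l` prime to `k` for which the inequality of the problem with the constant `2 - δ` fails -/
noncomputable def exc (δ x y : ℝ) (k : ℕ) : ℕ :=
  ((range k).filter (fun l : ℕ => l.Coprime k ∧
    (2 - δ) * y / (Nat.totient k * Real.log (y / k)) ≤ N x y k l)).card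

open Classical in
theorem result :
    -- the constant `2 - δ`: classes, the whole range `k < y ≤ k ^ A`
    (∀ A : ℝ, ∃ δ c C : ℝ, 0 < δ ∧ 0 < c ∧ 0 < C ∧ ∃ k₀ : ℕ, ∀ k : ℕ, k₀ ≤ k → ∀ x y : ℝ,
      y ≤ (k : ℝ) ^ A → y ≤ x →
      (k < y → (exc δ x y k : ℝ) ≤ C * (Nat.totient k / Real.log k)) ∧
      (k * Real.log k ≤ y → (exc δ x y k : ℝ) ≤ k * Real.exp (-(c * Real.log k / Real.log (Real.log k)))) ∧
      (k * Real.log k ^ 5 ≤ y → (exc δ x y k : ℝ) ≤ (k : ℝ) ^ (1 - c))) ∧
    -- the constant `2 - 3 ε`: positions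
    (∀ ε : ℝ, 0 < ε → ε ≤ 1 / 2 → ∃ c H₀ : ℝ, 0 < c ∧ 0 < H₀ ∧ ∃ X₀ : ℕ, ∀ X : ℕ, X₀ ≤ X → ∀ (k : ℕ) (H : ℝ),
      1 ≤ k → H₀ ≤ H →
      (((Icc 1 X).filter (fun n : ℕ => ∃ a b : ℕ, a < n ∧ n ≤ b ∧ b ≤ X ∧ k * H ≤ (b : ℝ) - a ∧
        (b : ℝ) - a ≤ k * (X : ℝ) ^ (5 / 9 - ε) ∧
        (2 - 3 * ε) * ((b : ℝ) - a) / (Nat.totient k * Real.log (((b : ℝ) - a) / k)) < N b (b - a) k n)).card : ℝ) ≤
        X * Real.exp (-H ^ (1 / 5 : ℝ)) + (X : ℝ) ^ (1 - c)) := by
  have hMOM := Pool.Agent.Helper51.PS.MOM.main Pool.Agent.Helper51.PS.PHI.main Pool.Agent.Helper51.PS.LINK.main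
    Pool.Agent.Helper51.PS.CNT.main
  have hone := Pool.Agent.Helper51.PS.G1.one hMOM Pool.Agent.Helper51.PS.LCM.main Pool.Agent.Helper51.PS.TUR.main
    Pool.Agent.Helper51.PS.DIC.main
  have huni := Pool.Agent.Helper51.PS.G2.uni hone
  have hpos := Pool.Agent.Helper51.PS.G3.pos huni
  have hcls := Pool.Agent.Helper51.PS.G4.cls hpos
  have hall := Pool.Agent.Helper51.PS.G4.all hcls
  have hrng := Pool.Agent.Helper51.PS.G5.rng2 hall Pool.Agent.Helper51.PS.FST.main
    Pool.Agent.Helper51.PS.G5.h12.1 Pool.Agent.Helper51.PS.G5.h12.2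
  have hint := Pool.Agent.Helper51.PS.G4.int hpos
  exact ⟨fun A => hrng A, fun ε hε hε2 => hint ε hε hε2⟩

end Pool.Agent.Results.MP_26a8c3_nt.WholeRangeAlmostAllClasses
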